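import Mathlib

/-!
# MP_ba4d4a_gt, Q1: a tetrahedron whose longest edge misses the vertex of largest curvature

The tetrahedron with vertices `(-3,0,0)`, `(3,0,0)`, `(0,5,0)`, `(0,0,3)` has a unique longest
edge, joining the first two vertices (length 6, the others have length `√34` or `√18`), and the
curvature at both of its endpoints is strictly smaller than the curvature at `(0,5,0)`.
-/

namespace Pool.Agent.Results.MP_ba4d4a_gt.LongestEdge

open Real EuclideanGeometry

/-- Euclidean 3-space. -/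
abbrev E3 : Type := EuclideanSpace ℝ (Fin 3)

/-- The sum of the face angles at the vertex `i` of the tetrahedron with vertices `v`: the sum of
the angles `∠ (v j) (v i) (v k)` over the three faces `{i, j, k}` containing `i`. -/
noncomputable def angleSum (v : Fin 4 → E3) (i : Fin 4) : ℝ :=
  ∑ j : Fin 4, ∑ k : Fin 4, if j ≠ i ∧ k ≠ i ∧ j < k then ∠ (v j) (v i) (v k) else 0

/-- The curvature (angle deficit) at the vertex `i`. -/
noncomputable def curvature (v : Fin 4 → E3) (i : Fin 4) : ℝ := 2 * π - angleSum v i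

/-- The edge joining the vertices `i ≠ j` is a longest edge. -/
def IsLongestEdge (v : Fin 4 → E3) (i j : Fin 4) : Prop :=
  i ≠ j ∧ ∀ k l, dist (v k) (v l) ≤ dist (v i) (v j)

/-- the vertices of the counterexample -/
noncomputable def vtx : Fin 4 → E3 := ![!₂[-3, 0, 0], !₂[3, 0, 0], !₂[0, 5, 0], !₂[0, 0, 3]]

theorem angle_eq (a b c a' b' c' : ℝ) (x y z : ℝ) :
    ∠ (!₂[a, b, c] : E3) !₂[x, y, z] !₂[a', b', c'] =
      arccos (((a - x) * (a' - x) + (b - y) * (b' - y) + (c - z) * (c' - z)) /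
        (√((a - x) ^ 2 + (b - y) ^ 2 + (c - z) ^ 2) *
          √((a' - x) ^ 2 + (b' - y) ^ 2 + (c' - z) ^ 2))) := by
  simp only [EuclideanGeometry.angle, InnerProductGeometry.angle, EuclideanSpace.norm_eq,
    PiLp.inner_apply, Fin.sum_univ_three, vsub_eq_sub]
  simp
  ring_nf

theorem arccos_lt {x y : ℝ} (h1 : -1 ≤ x) (h : x < y) (h2 : y ≤ 1) : arccos y < arccos x :=
  strictAntiOn_arccos ⟨h1, h.le.trans h2⟩ ⟨h1.trans h.le, h2⟩ h

theorem angleSum_zero (v : Fin 4 → E3) :
    angleSum v 0 = ∠ (v 1) (v 0) (v 2) + ∠ (v 1) (v 0) (v 3) + ∠ (v 2) (v 0) (v 3) := by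
  simp [angleSum, Fin.sum_univ_four]

theorem angleSum_one (v : Fin 4 → E3) :
    angleSum v 1 = ∠ (v 0) (v 1) (v 2) + ∠ (v 0) (v 1) (v 3) + ∠ (v 2) (v 1) (v 3) := by
  simp [angleSum, Fin.sum_univ_four]

theorem angleSum_two (v : Fin 4 → E3) :
    angleSum v 2 = ∠ (v 0) (v 2) (v 1) + ∠ (v 0) (v 2) (v 3) + ∠ (v 1) (v 2) (v 3) := by
  simp [angleSum, Fin.sum_univ_four]

theorem sqrt34_pos : 0 < √(34 : ℝ) := Real.sqrt_pos.2 (by norm_num)

theorem sqrt34_bounds : (5.83 : ℝ) < √34 ∧ √34 < 5.84 :=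
  ⟨Real.lt_sqrt_of_sq_lt (by norm_num), (Real.sqrt_lt' (by norm_num)).2 (by norm_num)⟩

theorem sqrt18_bounds : (4.242 : ℝ) < √18 ∧ √18 < 4.243 :=
  ⟨Real.lt_sqrt_of_sq_lt (by norm_num), (Real.sqrt_lt' (by norm_num)).2 (by norm_num)⟩

/-- the three comparisons of cosines -/
theorem sum_lt : arccos (16 / 34) + arccos (25 / 34) + arccos (25 / 34) <
    arccos (18 / (6 * √34)) + arccos (18 / (6 * √18)) + arccos (9 / (√34 * √18)) := by
  obtain ⟨h1, h2⟩ := sqrt34_bounds
  obtain ⟨h3, h4⟩ := sqrt18_bounds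
  have a : arccos (25 / 34) < arccos (18 / (6 * √34)) := by
    apply arccos_lt
    · have : (0 : ℝ) ≤ 18 / (6 * √34) := by positivity
      linarith
    · rw [div_lt_div_iff₀ (by positivity) (by norm_num)]
      nlinarith
    · norm_num
  have b : arccos (25 / 34) < arccos (18 / (6 * √18)) := by
    apply arccos_lt
    · have : (0 : ℝ) ≤ 18 / (6 * √18) := by positivity
      linarith
    · rw [div_lt_div_iff₀ (by positivity) (by norm_num)]
      nlinarith
    · norm_num
  have c : arccos (16 / 34) < arccos (9 / (√34 * √18)) := by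
    apply arccos_lt
    · have : (0 : ℝ) ≤ 9 / (√34 * √18) := by positivity
      linarith
    · rw [div_lt_div_iff₀ (by positivity) (by norm_num)]
      nlinarith
    · norm_num
  linarith

theorem angleSum_vtx_two : angleSum vtx 2 = arccos (16 / 34) + arccos (25 / 34) + arccos (25 / 34) := by
  rw [angleSum_two]
  simp only [vtx, Matrix.cons_val_zero, Matrix.cons_val_one, Matrix.cons_val]
  rw [angle_eq, angle_eq, angle_eq]
  norm_num

theorem angleSum_vtx_zero : angleSum vtx 0 =
    arccos (18 / (6 * √34)) + arccos (18 / (6 * √18)) + arccos (9 / (√34 * √18)) := by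
  rw [angleSum_zero]
  simp only [vtx, Matrix.cons_val_zero, Matrix.cons_val_one, Matrix.cons_val]
  rw [angle_eq, angle_eq, angle_eq]
  norm_num

theorem angleSum_vtx_one : angleSum vtx 1 =
    arccos (18 / (6 * √34)) + arccos (18 / (6 * √18)) + arccos (9 / (√34 * √18)) := by
  rw [angleSum_one]
  simp only [vtx, Matrix.cons_val_zero, Matrix.cons_val_one, Matrix.cons_val]
  rw [angle_eq, angle_eq, angle_eq]
  norm_num

theorem affineIndependent_vtx : AffineIndependent ℝ vtx := by
  rw [affineIndependent_iff_linearIndependent_vsub ℝ vtx 0,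
    ← linearIndependent_equiv (finSuccAboveEquiv (0 : Fin 4)), Fintype.linearIndependent_iff]
  intro g hg
  simp only [Fin.sum_univ_three, Function.comp, finSuccAboveEquiv_apply] at hg
  have h0 := congrArg (fun x : E3 => x 0) hg
  have h1 := congrArg (fun x : E3 => x 1) hg
  have h2 := congrArg (fun x : E3 => x 2) hg
  simp [vtx] at h0 h1 h2
  intro i
  fin_cases i <;> simp <;> linarith

theorem dist_eq' (a b c x y z : ℝ) :
    dist (!₂[a, b, c] : E3) !₂[x, y, z] = √((a - x) ^ 2 + (b - y) ^ 2 + (c - z) ^ 2) := by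
  rw [EuclideanSpace.dist_eq, Fin.sum_univ_three]
  simp [Real.dist_eq]

/-- the squared edge lengths -/
def sq : Fin 4 → Fin 4 → ℝ :=
  ![![0, 36, 34, 18], ![36, 0, 34, 18], ![34, 34, 0, 34], ![18, 18, 34, 0]]

theorem dist_vtx (k l : Fin 4) : dist (vtx k) (vtx l) = √(sq k l) := by
  fin_cases k <;> fin_cases l <;> simp [vtx, dist_eq', sq] <;> norm_num

theorem sq_lt (k l : Fin 4) (h : s(k, l) ≠ s(0, 1)) : sq k l < 36 := by
  fin_cases k <;> fin_cases l <;> first
    | exact absurd rfl h
    | exact absurd Sym2.eq_swap h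
    | (simp [sq]; try norm_num)

theorem dist_lt (k l : Fin 4) (h : s(k, l) ≠ s(0, 1)) :
    dist (vtx k) (vtx l) < dist (vtx 0) (vtx 1) := by
  rw [dist_vtx, dist_vtx]
  have h1 : sq 0 1 = 36 := by simp [sq]
  rw [h1]
  exact Real.sqrt_lt_sqrt (by fin_cases k <;> fin_cases l <;> simp [sq]) (sq_lt k l h)

/-- **Main result.** There is a (non-degenerate) tetrahedron and two of its vertices `i ≠ j` such
that the edge `ij` is strictly longer than every other edge, while the curvatures at `i` and at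
`j` are both strictly smaller than the curvature at a third vertex `m`. -/
theorem result :
    ∃ v : Fin 4 → E3, AffineIndependent ℝ v ∧
      ∃ i j : Fin 4, IsLongestEdge v i j ∧
        (∀ k l, s(k, l) ≠ s(i, j) → dist (v k) (v l) < dist (v i) (v j)) ∧
        ∃ m, curvature v i < curvature v m ∧ curvature v j < curvature v m := by
  refine ⟨vtx, affineIndependent_vtx, 0, 1, ⟨by decide, fun k l => ?_⟩, dist_lt, 2, ?_, ?_⟩
  · by_cases h : s(k, l) = s(0, 1)
    · rw [Sym2.eq_iff] at h
      rcases h with ⟨rfl, rfl⟩ | ⟨rfl, rfl⟩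
      · exact le_rfl
      · exact (dist_comm _ _).le
    · exact (dist_lt k l h).le
  · rw [curvature, curvature, angleSum_vtx_two, angleSum_vtx_zero]
    linarith [sum_lt]
  · rw [curvature, curvature, angleSum_vtx_two, angleSum_vtx_one]
    linarith [sum_lt]

end Pool.Agent.Results.MP_ba4d4a_gt.LongestEdge
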